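import Mathlib

set_option autoImplicit false

namespace Pool.Agent.Results.MP_3f3e0f_an.PowerForm

open Polynomial

/-- A real polynomial is real-rooted if it is zero or all its complex zeros are real. -/
def RealRooted (p : ℝ[X]) : Prop := p = 0 ∨ ∀ z : ℂ, aeval z p = 0 → z.im = 0

/-- The class of real-rooted polynomials all of whose coefficients up to the degree are positive. -/
def PosClass (p : ℝ[X]) : Prop := RealRooted p ∧ ∀ k ≤ p.natDegree, 0 < p.coeff k

/-- Apply `F` to every coefficient `a_0, ..., a_n` of `p`, where `n` is the degree of `p`. -/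
noncomputable def entrywise (F : ℝ → ℝ) (p : ℝ[X]) : ℝ[X] :=
  ∑ k ∈ Finset.range (p.natDegree + 1), C (F (p.coeff k)) * X ^ k

/-- `F` preserves real-rootedness. -/
def Preserves (F : ℝ → ℝ) : Prop := ∀ p : ℝ[X], PosClass p → RealRooted (entrywise F p)

/-! ### Products of linear factors -/

/-- The product of `X + r` over a multiset. -/
noncomputable def prodLin (M : Multiset ℝ) : ℝ[X] := (M.map (fun r => X + C r)).prod

lemma prodLin_cons (r : ℝ) (M : Multiset ℝ) : prodLin (r ::ₘ M) = prodLin M * (X + C r) := by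
  simp only [prodLin, Multiset.map_cons, Multiset.prod_cons]; ring

lemma prodLin_logconcave (M : Multiset ℝ) (hM : ∀ r ∈ M, 0 ≤ r) :
    (∀ i, 0 ≤ (prodLin M).coeff i) ∧
    ∀ i j, i ≤ j → (prodLin M).coeff i * (prodLin M).coeff (j + 2) ≤
      (prodLin M).coeff (i + 1) * (prodLin M).coeff (j + 1) := by
  induction M using Multiset.induction_on with
  | empty =>
    constructor
    · intro i; simp only [prodLin, Multiset.map_zero, Multiset.prod_zero, coeff_one]
      split_ifs <;> norm_num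
    · intro i j _
      simp [prodLin, coeff_one]
  | cons r M ih =>
    obtain ⟨h0, h1⟩ := ih (fun x hx => hM x (Multiset.mem_cons_of_mem hx))
    have hr : 0 ≤ r := hM r (Multiset.mem_cons_self r M)
    set c := fun k => (prodLin M).coeff k with hc
    have e0 : (prodLin (r ::ₘ M)).coeff 0 = c 0 * r := by
      rw [prodLin_cons]; simp [mul_add, hc]
    have e1 : ∀ k, (prodLin (r ::ₘ M)).coeff (k + 1) = c k + c (k + 1) * r := by
      intro k; rw [prodLin_cons]; simp [mul_add, hc, coeff_mul_X]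
    have h0' : ∀ i, 0 ≤ c i := h0
    have h1' : ∀ i j, i ≤ j → c i * c (j + 2) ≤ c (i + 1) * c (j + 1) := h1
    constructor
    · intro i
      rcases i with _ | i
      · rw [e0]; exact mul_nonneg (h0' 0) hr
      · rw [e1]; exact add_nonneg (h0' i) (mul_nonneg (h0' _) hr)
    · intro i j hij
      rcases i with _ | i
      · rw [e0]
        have := e1 0
        rw [zero_add] at this
        rw [this, e1 (j + 1), e1 j]
        have a1 := h1' 0 j (Nat.zero_le j)
        rw [zero_add] at a1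
        have a2 := mul_nonneg (h0' 0) (h0' j)
        have a3 := mul_nonneg (mul_nonneg hr (h0' 1)) (h0' j)
        have a4 := mul_le_mul_of_nonneg_left a1 (mul_nonneg hr hr)
        nlinarith
      · obtain ⟨j, rfl⟩ : ∃ j', j = j' + 1 := ⟨j - 1, by omega⟩
        rw [e1 i, e1 (j + 1 + 1), e1 (i + 1), e1 (j + 1)]
        have hij' : i ≤ j := by omega
        have a1 := h1' i j hij'
        have a2 := h1' (i + 1) (j + 1) (by omega)
        have a3 : c i * c (j + 3) ≤ c (i + 2) * c (j + 1) := by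
          have b1 : c i * c (j + 3) ≤ c (i + 1) * c (j + 2) := h1' i (j + 1) (by omega)
          rcases Nat.eq_or_lt_of_le hij' with heq | hlt
          · subst heq
            calc c i * c (i + 3) ≤ c (i + 1) * c (i + 2) := b1
              _ = c (i + 2) * c (i + 1) := by ring
          · have b2 : c (i + 1) * c (j + 2) ≤ c (i + 2) * c (j + 1) := h1' (i + 1) j (by omega)
            exact b1.trans b2
        have a2' : c (i + 1) * c (j + 3) ≤ c (i + 2) * c (j + 2) := a2
        have a4 := mul_le_mul_of_nonneg_left a2' (mul_nonneg hr hr)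
        have a5 := mul_le_mul_of_nonneg_left a3 hr
        show (c i + c (i + 1) * r) * (c (j + 2) + c (j + 3) * r) ≤
          (c (i + 1) + c (i + 2) * r) * (c (j + 1) + c (j + 2) * r)
        nlinarith

/-- The four point inequality for products of linear factors with nonnegative constants. -/
lemma prodLin_four (M : Multiset ℝ) (hM : ∀ r ∈ M, 0 ≤ r) (y q : ℝ) (hy : 0 < y) (hq1 : 1 ≤ q)
    (hq2 : q ≤ 2) :
    0 < (prodLin M).eval y ∧ 0 < (prodLin M).eval (q * y) ∧ 0 < (prodLin M).eval (q ^ 2 * y) ∧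
    0 < (prodLin M).eval (q ^ 3 * y) ∧
    (prodLin M).eval (q ^ 3 * y) * (prodLin M).eval (q * y) ^ 5 ≤
      (prodLin M).eval (q ^ 2 * y) ^ 4 * (prodLin M).eval y ^ 2 := by
  induction M using Multiset.induction_on with
  | empty => simp [prodLin]
  | cons r M ih =>
    obtain ⟨h0, h1, h2, h3, h4⟩ := ih (fun x hx => hM x (Multiset.mem_cons_of_mem hx))
    have hr : 0 ≤ r := hM r (Multiset.mem_cons_self r M)
    simp only [prodLin_cons, eval_mul, eval_add, eval_X, eval_C]
    have hq0 : 0 < q := by linarith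
    have p0 : 0 < y + r := by linarith
    have p1 : 0 < q * y + r := by positivity
    have p2 : 0 < q ^ 2 * y + r := by positivity
    have p3 : 0 < q ^ 3 * y + r := by positivity
    refine ⟨mul_pos h0 p0, mul_pos h1 p1, mul_pos h2 p2, mul_pos h3 p3, ?_⟩
    have key : (q ^ 3 * y + r) * (q * y + r) ^ 5 ≤ (q ^ 2 * y + r) ^ 4 * (y + r) ^ 2 := by
      have e1 : (q ^ 3 * y + r) * (q * y + r) = (q ^ 2 * y + r) ^ 2 + q * (r * y * (q - 1) ^ 2) := by ring
      have e2 : (q ^ 2 * y + r) * (y + r) = (q * y + r) ^ 2 + r * y * (q - 1) ^ 2 := by ring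
      set d := r * y * (q - 1) ^ 2 with hd
      have hd0 : 0 ≤ d := by positivity
      have hle : q * y + r ≤ q ^ 2 * y + r := by nlinarith [mul_nonneg hy.le (by linarith : (0 : ℝ) ≤ q - 1)]
      have hsq : (q * y + r) ^ 2 ≤ (q ^ 2 * y + r) ^ 2 := pow_le_pow_left₀ p1.le hle 2
      have f1 : (q ^ 3 * y + r) * (q * y + r) ^ 5 = ((q ^ 3 * y + r) * (q * y + r)) * (q * y + r) ^ 4 := by ring
      have f2 : (q ^ 2 * y + r) ^ 4 * (y + r) ^ 2 = (q ^ 2 * y + r) ^ 2 * ((q ^ 2 * y + r) * (y + r)) ^ 2 := by ring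
      rw [f1, f2, e1, e2]
      set u := (q * y + r) ^ 2 with hu
      set v := (q ^ 2 * y + r) ^ 2 with hv
      have hu4 : (q * y + r) ^ 4 = u ^ 2 := by rw [hu]; ring
      rw [hu4]
      have hu0 : 0 ≤ u := by positivity
      have hv0 : 0 ≤ v := by positivity
      have hqu : q * u ≤ 2 * v := by nlinarith
      have := mul_nonneg (mul_nonneg hd0 hu0) (sub_nonneg.2 hqu)
      have := mul_nonneg hv0 (mul_nonneg hd0 hd0)
      nlinarith
    have hA : 0 ≤ (q ^ 3 * y + r) * (q * y + r) ^ 5 := by positivity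
    have hB : 0 ≤ (prodLin M).eval (q ^ 2 * y) ^ 4 * (prodLin M).eval y ^ 2 := by positivity
    calc (prodLin M).eval (q ^ 3 * y) * (q ^ 3 * y + r) * ((prodLin M).eval (q * y) * (q * y + r)) ^ 5
        = ((prodLin M).eval (q ^ 3 * y) * (prodLin M).eval (q * y) ^ 5) *
            ((q ^ 3 * y + r) * (q * y + r) ^ 5) := by ring
      _ ≤ ((prodLin M).eval (q ^ 2 * y) ^ 4 * (prodLin M).eval y ^ 2) *
            ((q ^ 2 * y + r) ^ 4 * (y + r) ^ 2) := mul_le_mul h4 key hA hB
      _ = _ := by ring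

/-- A nonzero real-rooted polynomial with nonnegative coefficients is a positive multiple of a
product of factors `X + r` with `r ≥ 0`. -/
lemma exists_prodLin (Q : ℝ[X]) (hQ : RealRooted Q) (hQ0 : Q ≠ 0) (hc : ∀ k, 0 ≤ Q.coeff k) :
    ∃ (c : ℝ) (M : Multiset ℝ), 0 < c ∧ (∀ r ∈ M, 0 ≤ r) ∧ Q = C c * prodLin M := by
  have hroots := hQ.resolve_left hQ0
  have hsp : Q.Splits := by
    have hC : (Q.map (algebraMap ℝ ℂ)).Splits := IsAlgClosed.splits _
    refine Polynomial.Splits.of_splits_map_of_injective (algebraMap ℝ ℂ).injective hC ?_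
    intro a ha
    have ha' : (Q.map (algebraMap ℝ ℂ)).eval a = 0 := (Polynomial.mem_roots'.1 ha).2
    have him := hroots a (by rw [← eval_map_algebraMap]; exact ha')
    refine ⟨a.re, ?_⟩
    apply Complex.ext <;> simp [him]
  have hlc : 0 < Q.leadingCoeff := lt_of_le_of_ne (hc _) (Ne.symm (leadingCoeff_ne_zero.2 hQ0))
  refine ⟨Q.leadingCoeff, Q.roots.map (fun x => -x), hlc, ?_, ?_⟩
  · intro r hr
    obtain ⟨x, hx, rfl⟩ := Multiset.mem_map.1 hr
    by_contra hneg
    push Not at hneg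
    have hx0 : 0 < x := by linarith
    have hev := (Polynomial.mem_roots'.1 hx).2
    rw [IsRoot.def, eval_eq_sum_range] at hev
    have hpos : 0 < ∑ i ∈ Finset.range (Q.natDegree + 1), Q.coeff i * x ^ i := by
      apply Finset.sum_pos'
      · intro i _; exact mul_nonneg (hc i) (by positivity)
      · exact ⟨Q.natDegree, by simp, mul_pos hlc (by positivity)⟩
    linarith
  · conv_lhs => rw [hsp.eq_prod_roots]
    congr 1
    simp only [prodLin, Multiset.map_map]
    congr 1
    apply Multiset.map_congr rfl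
    intro x _
    simp [sub_eq_add_neg]

lemma newton (Q : ℝ[X]) (hQ : RealRooted Q) (hc : ∀ k, 0 ≤ Q.coeff k) (k : ℕ) :
    Q.coeff k * Q.coeff (k + 2) ≤ Q.coeff (k + 1) ^ 2 := by
  by_cases hQ0 : Q = 0
  · subst hQ0; simp
  · obtain ⟨c, M, hc0, hM, rfl⟩ := exists_prodLin Q hQ hQ0 hc
    have h := (prodLin_logconcave M hM).2 k k le_rfl
    simp only [coeff_C_mul]
    have hc2 : 0 ≤ c ^ 2 := by positivity
    nlinarith [mul_le_mul_of_nonneg_left h hc2]

lemma entrywise_coeff (F : ℝ → ℝ) (p : ℝ[X]) (k : ℕ) :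
    (entrywise F p).coeff k = if k ≤ p.natDegree then F (p.coeff k) else 0 := by
  unfold entrywise
  rw [finsetSum_coeff]
  simp only [coeff_C_mul, coeff_X_pow, mul_ite, mul_one, mul_zero]
  rw [Finset.sum_ite_eq]
  simp

lemma entrywise_nonneg (F : ℝ → ℝ) (hF : ∀ t, 0 ≤ t → 0 ≤ F t) (p : ℝ[X]) (hp : PosClass p) (k : ℕ) :
    0 ≤ (entrywise F p).coeff k := by
  rw [entrywise_coeff]
  split_ifs with h
  · exact hF _ (hp.2 k h).le
  · exact le_rfl

/-- Rescaling preserves the class. -/
lemma posClass_scale (W : ℝ[X]) (hW : PosClass W) (hW0 : W ≠ 0) (A ρ : ℝ) (hA : 0 < A) (hρ : 0 < ρ) :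
    PosClass (C A * W.comp (C ρ * X)) ∧ (C A * W.comp (C ρ * X)).natDegree = W.natDegree ∧
    ∀ k, (C A * W.comp (C ρ * X)).coeff k = A * (W.coeff k * ρ ^ k) := by
  have hdeg : (C A * W.comp (C ρ * X)).natDegree = W.natDegree := by
    rw [natDegree_C_mul hA.ne', natDegree_comp, natDegree_C_mul_X _ hρ.ne', mul_one]
  have hco : ∀ k, (C A * W.comp (C ρ * X)).coeff k = A * (W.coeff k * ρ ^ k) := by
    intro k
    rw [coeff_C_mul, comp_C_mul_X_coeff]
  refine ⟨⟨Or.inr ?_, ?_⟩, hdeg, hco⟩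
  · intro z hz
    have h1 : aeval ((ρ : ℂ) * z) W = 0 := by
      have : aeval z (C A * W.comp (C ρ * X)) = (A : ℂ) * aeval ((ρ : ℂ) * z) W := by
        rw [map_mul, aeval_C, aeval_comp]
        simp
      rw [this] at hz
      rcases mul_eq_zero.1 hz with h | h
      · exfalso; exact hA.ne' (by exact_mod_cast h)
      · exact h
    have h2 := (hW.1.resolve_left hW0) _ h1
    have h3 : ((ρ : ℂ) * z).im = ρ * z.im := by simp
    rw [h3] at h2
    exact (mul_eq_zero.1 h2).resolve_left hρ.ne'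
  · intro k hk
    rw [hdeg] at hk
    rw [hco]
    have := hW.2 k hk
    positivity

/-- The two-cluster polynomial. -/
noncomputable def W2 (m : ℕ) (q : ℝ) : ℝ[X] := (X + C q) ^ m * (X + C 1) ^ m

lemma W2_natDegree (m : ℕ) (q : ℝ) : (W2 m q).natDegree = 2 * m := by
  unfold W2
  rw [(Monic.pow (monic_X_add_C q) m).natDegree_mul (Monic.pow (monic_X_add_C 1) m),
    natDegree_pow, natDegree_pow, natDegree_X_add_C, natDegree_X_add_C]
  ring

lemma W2_coeff (m : ℕ) (q : ℝ) (k : ℕ) : (W2 m q).coeff k =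
    ∑ x ∈ Finset.HasAntidiagonal.antidiagonal k, (q ^ (m - x.1) * (m.choose x.1 : ℝ)) * (m.choose x.2 : ℝ) := by
  unfold W2
  rw [coeff_mul]
  apply Finset.sum_congr rfl
  intro x _
  rw [coeff_X_add_C_pow, coeff_X_add_C_pow, one_pow, one_mul]

lemma W2_posClass (m : ℕ) (q : ℝ) (hq : 0 < q) : PosClass (W2 m q) ∧ W2 m q ≠ 0 := by
  refine ⟨⟨Or.inr ?_, ?_⟩, ?_⟩
  · intro z hz
    unfold W2 at hz
    simp only [map_mul, map_pow, map_add, aeval_X, aeval_C] at hz
    rcases mul_eq_zero.1 hz with h | h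
    · have h1 := eq_zero_of_pow_eq_zero h
      have := congrArg Complex.im h1
      simpa using this
    · have h1 := eq_zero_of_pow_eq_zero h
      have := congrArg Complex.im h1
      simpa using this
  · intro k hk
    rw [W2_natDegree] at hk
    rw [W2_coeff]
    apply Finset.sum_pos'
    · intro x _; positivity
    · refine ⟨(k - min k m, min k m), ?_, ?_⟩
      · rw [Finset.HasAntidiagonal.mem_antidiagonal]; omega
      · have h1 : 0 < m.choose (k - min k m) := Nat.choose_pos (by omega)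
        have h2 : 0 < m.choose (min k m) := Nat.choose_pos (by omega)
        simp only
        positivity
  · unfold W2
    exact ((Monic.pow (monic_X_add_C q) m).mul (Monic.pow (monic_X_add_C 1) m)).ne_zero

/-- The exact three-term inequality. -/
lemma three_term (F : ℝ → ℝ) (hF : ∀ t, 0 ≤ t → 0 ≤ F t) (hP : Preserves F) (a b c : ℝ)
    (ha : 0 < a) (hb : 0 < b) (hc : 0 < c) (hlt : a * c < b ^ 2) : F a * F c ≤ F b ^ 2 := by
  -- choose m
  set R := b ^ 2 / (a * c) with hR
  have hac : 0 < a * c := mul_pos ha hc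
  have hR1 : 1 < R := by rw [hR, one_lt_div hac]; exact hlt
  obtain ⟨n, hn⟩ : ∃ n : ℕ, ((n : ℝ) + 2) ^ 2 / ((n : ℝ) + 1) ^ 2 ≤ R := by
    have ht : Filter.Tendsto (fun n : ℕ => (1 + 1 / ((n : ℝ) + 1)) ^ 2) Filter.atTop (nhds ((1 + 0) ^ 2)) :=
      (tendsto_const_nhds.add tendsto_one_div_add_atTop_nhds_zero_nat).pow 2
    have h1 : (1 + 0 : ℝ) ^ 2 < R := by simpa using hR1
    obtain ⟨n, hn⟩ := (ht.eventually (gt_mem_nhds h1)).exists
    refine ⟨n, ?_⟩
    have h2 : ((n : ℝ) + 2) ^ 2 / ((n : ℝ) + 1) ^ 2 = (1 + 1 / ((n : ℝ) + 1)) ^ 2 := by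
      have : (n : ℝ) + 1 ≠ 0 := by positivity
      field_simp; ring
    rw [h2]; exact hn.le
  -- the intermediate value argument
  set m := n + 1 with hm
  have hcont : ∀ k, Continuous (fun q : ℝ => (W2 m q).coeff k) := by
    intro k
    simp only [W2_coeff]
    fun_prop
  have hg : ∃ q ∈ Set.Icc (0 : ℝ) 1, (W2 m q).coeff (n + 1) ^ 2 - R * ((W2 m q).coeff n * (W2 m q).coeff (n + 2)) = 0 := by
    have hcg : ContinuousOn (fun q : ℝ => (W2 m q).coeff (n + 1) ^ 2 -
        R * ((W2 m q).coeff n * (W2 m q).coeff (n + 2))) (Set.Icc 0 1) := by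
      apply Continuous.continuousOn
      exact ((hcont _).pow 2).sub (continuous_const.mul ((hcont _).mul (hcont _)))
    have h0 : (W2 m 0).coeff (n + 1) ^ 2 - R * ((W2 m 0).coeff n * (W2 m 0).coeff (n + 2)) = 1 := by
      have hW : W2 m 0 = (X + C 1) ^ m * X ^ m := by unfold W2; simp [mul_comm]
      have e1 : (W2 m 0).coeff n = 0 := by
        rw [hW, coeff_mul_X_pow']; simp [hm]
      have e2 : (W2 m 0).coeff (n + 1) = 1 := by
        rw [hW, coeff_mul_X_pow', if_pos (by omega), coeff_X_add_C_pow]; simp [hm]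
      rw [e1, e2]; ring
    have h1 : (W2 m 1).coeff (n + 1) ^ 2 - R * ((W2 m 1).coeff n * (W2 m 1).coeff (n + 2)) ≤ 0 := by
      have hW : W2 m 1 = (X + C 1) ^ (2 * m) := by unfold W2; ring
      have e : ∀ k, (W2 m 1).coeff k = ((2 * m).choose k : ℝ) := by
        intro k; rw [hW, coeff_X_add_C_pow, one_pow, one_mul]
      rw [e, e, e]
      have c1 : ((2 * m).choose (n + 1) : ℝ) * ((n : ℝ) + 1) = ((2 * m).choose n : ℝ) * ((n : ℝ) + 2) := by
        have := Nat.choose_succ_right_eq (2 * m) n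
        have h2 : 2 * m - n = n + 2 := by omega
        rw [h2] at this
        exact_mod_cast this
      have c2 : ((2 * m).choose (n + 2) : ℝ) * ((n : ℝ) + 2) = ((2 * m).choose (n + 1) : ℝ) * ((n : ℝ) + 1) := by
        have := Nat.choose_succ_right_eq (2 * m) (n + 1)
        have h2 : 2 * m - (n + 1) = n + 1 := by omega
        rw [h2] at this
        exact_mod_cast this
      set x := ((2 * m).choose (n + 1) : ℝ) with hx
      set y := ((2 * m).choose n : ℝ) with hy
      set z := ((2 * m).choose (n + 2) : ℝ) with hz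
      have n1 : (0 : ℝ) < (n : ℝ) + 1 := by positivity
      have n2 : (0 : ℝ) < (n : ℝ) + 2 := by positivity
      have hy' : y = x * ((n : ℝ) + 1) / ((n : ℝ) + 2) := by
        rw [eq_div_iff n2.ne']; linarith
      have hz' : z = x * ((n : ℝ) + 1) / ((n : ℝ) + 2) := by
        rw [eq_div_iff n2.ne']; linarith
      have h3 : x ^ 2 = ((n : ℝ) + 2) ^ 2 / ((n : ℝ) + 1) ^ 2 * (y * z) := by
        rw [hy', hz']; field_simp
      have h4 : 0 ≤ y * z := by positivity
      have := mul_le_mul_of_nonneg_right hn h4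
      linarith
    have := intermediate_value_Icc' (by norm_num : (0 : ℝ) ≤ 1) hcg
    have hmem : (0 : ℝ) ∈ Set.Icc ((W2 m 1).coeff (n + 1) ^ 2 - R * ((W2 m 1).coeff n * (W2 m 1).coeff (n + 2)))
        ((W2 m 0).coeff (n + 1) ^ 2 - R * ((W2 m 0).coeff n * (W2 m 0).coeff (n + 2))) := by
      rw [h0]; exact ⟨h1, by norm_num⟩
    obtain ⟨q, hq, hq'⟩ := this hmem
    exact ⟨q, hq, hq'⟩
  obtain ⟨q, ⟨hq0, hq1⟩, hqe⟩ := hg
  have hqpos : 0 < q := by
    rcases hq0.lt_or_eq with h | h
    · exact h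
    · exfalso
      rw [← h] at hqe
      have hW : W2 m 0 = (X + C 1) ^ m * X ^ m := by unfold W2; simp [mul_comm]
      have e1 : (W2 m 0).coeff n = 0 := by
        rw [hW, coeff_mul_X_pow']; simp [hm]
      have e2 : (W2 m 0).coeff (n + 1) = 1 := by
        rw [hW, coeff_mul_X_pow', if_pos (by omega), coeff_X_add_C_pow]; simp [hm]
      rw [e1, e2] at hqe; norm_num at hqe
  obtain ⟨hWc, hW0⟩ := W2_posClass m q hqpos
  have hdeg := W2_natDegree m q
  have w0 : 0 < (W2 m q).coeff n := hWc.2 n (by rw [hdeg]; omega)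
  have w1 : 0 < (W2 m q).coeff (n + 1) := hWc.2 _ (by rw [hdeg]; omega)
  have w2 : 0 < (W2 m q).coeff (n + 2) := hWc.2 _ (by rw [hdeg]; omega)
  set x0 := (W2 m q).coeff n with hx0
  set x1 := (W2 m q).coeff (n + 1) with hx1
  set x2 := (W2 m q).coeff (n + 2) with hx2
  set ρ := (b / a) * (x0 / x1) with hρ
  have hρ0 : 0 < ρ := by positivity
  set A := a / (x0 * ρ ^ n) with hA
  have hA0 : 0 < A := by positivity
  obtain ⟨hf, hfd, hfc⟩ := posClass_scale (W2 m q) hWc hW0 A ρ hA0 hρ0
  set f := C A * (W2 m q).comp (C ρ * X) with hfdef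
  have f0 : f.coeff n = a := by
    rw [hfc, ← hx0, hA]; field_simp
  have f1 : f.coeff (n + 1) = b := by
    rw [hfc, ← hx1, hA, pow_succ]
    have : a / (x0 * ρ ^ n) * (x1 * (ρ ^ n * ρ)) = a * (x1 / x0) * ρ := by field_simp
    rw [this, hρ]; field_simp
  have f2 : f.coeff (n + 2) = c := by
    rw [hfc, ← hx2, hA, pow_add]
    have e1 : a / (x0 * ρ ^ n) * (x2 * (ρ ^ n * ρ ^ 2)) = a * (x2 / x0) * ρ ^ 2 := by field_simp
    have e2 : x0 * x2 = x1 ^ 2 / R := by
      rw [eq_div_iff (by linarith : R ≠ 0)]; linarith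
    have e3 : a * (x2 / x0) * ρ ^ 2 = (b ^ 2 / a) * (x0 * x2) / x1 ^ 2 := by
      rw [hρ]; field_simp
    rw [e1, e3, e2, hR]; field_simp
  have hQ := hP f hf
  have hnn := entrywise_nonneg F hF f hf
  have := newton (entrywise F f) hQ hnn n
  rw [entrywise_coeff, entrywise_coeff, entrywise_coeff, hfd, hdeg, if_pos (by omega), if_pos (by omega),
    if_pos (by omega), f0, f1, f2] at this
  exact this

/-! ### The right-continuous envelope in the logarithmic variable -/

lemma F_mono (F : ℝ → ℝ) (hF : ∀ t, 0 ≤ t → 0 ≤ F t) (hP : Preserves F) (a b : ℝ) (ha : 0 < a)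
    (hab : a ≤ b) : F a ≤ F b := by
  rcases hab.eq_or_lt with h | h
  · rw [h]
  · have := three_term F hF hP a b a ha (ha.trans h) ha (by nlinarith)
    have h1 : F a ^ 2 ≤ F b ^ 2 := by nlinarith
    exact (pow_le_pow_iff_left₀ (hF a ha.le) (hF b (ha.trans h).le) two_ne_zero).1 h1

/-- The envelope. -/
noncomputable def env (F : ℝ → ℝ) (s : ℝ) : ℝ := sInf ((fun t => F (Real.exp t)) '' Set.Ioi s)

section envelope

variable {F : ℝ → ℝ} (hF : ∀ t, 0 ≤ t → 0 ≤ F t) (hP : Preserves F)

include hF in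
lemma env_bdd (s : ℝ) : BddBelow ((fun t => F (Real.exp t)) '' Set.Ioi s) :=
  ⟨0, by rintro _ ⟨t, _, rfl⟩; exact hF _ (Real.exp_pos t).le⟩

lemma env_nonempty (F : ℝ → ℝ) (s : ℝ) : ((fun t => F (Real.exp t)) '' Set.Ioi s).Nonempty :=
  ⟨_, s + 1, by simp, rfl⟩

include hF in
lemma env_le (s t : ℝ) (h : s < t) : env F s ≤ F (Real.exp t) :=
  csInf_le (env_bdd hF s) ⟨t, h, rfl⟩

include hF hP in
lemma le_env (s : ℝ) : F (Real.exp s) ≤ env F s := by
  apply le_csInf (env_nonempty F s)
  rintro _ ⟨t, ht, rfl⟩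
  exact F_mono F hF hP _ _ (Real.exp_pos s) (Real.exp_le_exp.2 (le_of_lt ht))

include hF in
lemma env_nonneg (s : ℝ) : 0 ≤ env F s := by
  apply le_csInf (env_nonempty F s)
  rintro _ ⟨t, _, rfl⟩
  exact hF _ (Real.exp_pos t).le

include hF in
lemma env_mono (s t : ℝ) (h : s ≤ t) : env F s ≤ env F t := by
  apply le_csInf (env_nonempty F t)
  rintro _ ⟨u, hu, rfl⟩
  exact env_le hF s u (lt_of_le_of_lt h hu)

include hF hP in
lemma env_log (s h : ℝ) : env F (s - h) * env F (s + h) ≤ env F s ^ 2 := by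
  have h0 : 0 ≤ env F (s - h) * env F (s + h) := mul_nonneg (env_nonneg hF _) (env_nonneg hF _)
  have h1 : Real.sqrt (env F (s - h) * env F (s + h)) ≤ env F s := by
    apply le_csInf (env_nonempty F s)
    rintro _ ⟨t, ht, rfl⟩
    have ht' : s < t := ht
    apply Real.sqrt_le_iff.2
    refine ⟨hF _ (Real.exp_pos t).le, ?_⟩
    set e := t - s with he
    have he0 : 0 < e := by linarith
    have a1 := env_le hF (s - h) (s - h + e / 2) (by linarith)
    have a2 := env_le hF (s + h) (s + h + e / 2) (by linarith)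
    have a3 := three_term F hF hP (Real.exp (s - h + e / 2)) (Real.exp t) (Real.exp (s + h + e / 2))
      (Real.exp_pos _) (Real.exp_pos _) (Real.exp_pos _) (by
        rw [← Real.exp_add, sq, ← Real.exp_add]
        apply Real.exp_lt_exp.2; linarith)
    calc env F (s - h) * env F (s + h) ≤ F (Real.exp (s - h + e / 2)) * F (Real.exp (s + h + e / 2)) :=
          mul_le_mul a1 a2 (env_nonneg hF _) (hF _ (Real.exp_pos _).le)
      _ ≤ _ := a3
  calc env F (s - h) * env F (s + h) = Real.sqrt (env F (s - h) * env F (s + h)) ^ 2 :=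
        (Real.sq_sqrt h0).symm
    _ ≤ env F s ^ 2 := pow_le_pow_left₀ (Real.sqrt_nonneg _) h1 2

end envelope

/-! ### Bounded growth along a geometric progression -/

lemma growth (L U : ℝ) (hL : 0 < L) (N : ℕ) : ∃ B : ℝ, ∀ e : ℕ → ℝ, (∀ k, L ≤ e k) →
    (∀ k, e (k + 3) * e (k + 1) ^ 5 ≤ e (k + 2) ^ 4 * e k ^ 2) → e 0 ≤ U → e 1 ≤ U → e 2 ≤ U →
    e N ≤ B ∧ e (N + 1) ≤ B ∧ e (N + 2) ≤ B := by
  induction N with
  | zero => exact ⟨U, fun e _ _ h0 h1 h2 => ⟨h0, h1, h2⟩⟩
  | succ N ih =>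
    obtain ⟨B, hB⟩ := ih
    refine ⟨max B (B ^ 4 * B ^ 2 / L ^ 5), fun e hLe hrec h0 h1 h2 => ?_⟩
    obtain ⟨b0, b1, b2⟩ := hB e hLe hrec h0 h1 h2
    refine ⟨le_max_of_le_left b1, le_max_of_le_left b2, le_max_of_le_right ?_⟩
    have h3 := hrec N
    have p0 : 0 < e N := hL.trans_le (hLe N)
    have p1 : 0 < e (N + 1) := hL.trans_le (hLe _)
    have p2 : 0 < e (N + 2) := hL.trans_le (hLe _)
    have p3 : 0 < e (N + 3) := hL.trans_le (hLe _)
    rw [le_div_iff₀ (by positivity)]
    show e (N + 3) * L ^ 5 ≤ _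
    calc e (N + 3) * L ^ 5 ≤ e (N + 3) * e (N + 1) ^ 5 :=
          mul_le_mul_of_nonneg_left (pow_le_pow_left₀ hL.le (hLe _) 5) p3.le
      _ ≤ e (N + 2) ^ 4 * e N ^ 2 := h3
      _ ≤ B ^ 4 * B ^ 2 := mul_le_mul (pow_le_pow_left₀ p2.le b2 4) (pow_le_pow_left₀ p0.le b0 2)
          (by positivity) (by positivity)

/-- Central binomial coefficients are flat near the middle. -/
lemma choose_ratio (j : ℕ) : Filter.Tendsto
    (fun m : ℕ => (((2 * m).choose (m + j) : ℕ) : ℝ) / (((2 * m).choose m : ℕ) : ℝ)) Filter.atTop (nhds 1) := by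
  induction j with
  | zero =>
    have : (fun m : ℕ => (((2 * m).choose (m + 0) : ℕ) : ℝ) / (((2 * m).choose m : ℕ) : ℝ)) = fun _ => 1 := by
      funext m
      have : 0 < (2 * m).choose m := Nat.choose_pos (by omega)
      have : (0 : ℝ) < (((2 * m).choose m : ℕ) : ℝ) := by exact_mod_cast this
      simp [this.ne']
    rw [this]; exact tendsto_const_nhds
  | succ j ih =>
    have h1 : Filter.Tendsto (fun m : ℕ => ((m : ℝ) - j) / ((m : ℝ) + j + 1)) Filter.atTop (nhds 1) := by
      have h2 : Filter.Tendsto (fun m : ℕ => 1 - (2 * (j : ℝ) + 1) / ((m : ℝ) + ((j : ℝ) + 1))) Filter.atTop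
          (nhds (1 - 0)) := by
        apply tendsto_const_nhds.sub
        apply Filter.Tendsto.const_div_atTop
        exact Filter.tendsto_atTop_add_const_right _ _ tendsto_natCast_atTop_atTop
      rw [sub_zero] at h2
      refine h2.congr ?_
      intro m
      have : (m : ℝ) + ((j : ℝ) + 1) ≠ 0 := by positivity
      have h3 : (m : ℝ) + j + 1 = (m : ℝ) + ((j : ℝ) + 1) := by ring
      rw [h3]
      field_simp; ring
    have h4 := ih.mul h1
    rw [one_mul] at h4
    refine h4.congr' ?_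
    filter_upwards [Filter.eventually_ge_atTop j] with m hm
    have h5 := Nat.choose_succ_right_eq (2 * m) (m + j)
    have h6 : 2 * m - (m + j) = m - j := by omega
    rw [h6] at h5
    have h7 : (((2 * m).choose (m + (j + 1)) : ℕ) : ℝ) * ((m : ℝ) + j + 1) =
        (((2 * m).choose (m + j) : ℕ) : ℝ) * ((m : ℝ) - j) := by
      have := congrArg (Nat.cast : ℕ → ℝ) h5
      push_cast [Nat.cast_sub hm] at this
      exact this
    have h8 : (m : ℝ) + j + 1 ≠ 0 := by positivity
    rw [div_mul_div_comm, eq_comm, div_eq_div_iff]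
    · rw [mul_comm ((((2 * m).choose m : ℕ) : ℝ)), ← mul_assoc, h7]
    · have : 0 < (2 * m).choose m := Nat.choose_pos (by omega)
      have : (0 : ℝ) < (((2 * m).choose m : ℕ) : ℝ) := by exact_mod_cast this
      exact this.ne'
    · have : 0 < (2 * m).choose m := Nat.choose_pos (by omega)
      have : (0 : ℝ) < (((2 * m).choose m : ℕ) : ℝ) := by exact_mod_cast this
      exact mul_ne_zero this.ne' h8

/-- The rescaled power of `1 + X` whose middle coefficient is `exp s`. -/
noncomputable def fpoly (s h : ℝ) (m : ℕ) : ℝ[X] :=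
  C (Real.exp (s - h * m) / ((2 * m).choose m : ℕ)) * (W2 m 1).comp (C (Real.exp h) * X)

lemma fpoly_spec (s h : ℝ) (m : ℕ) : PosClass (fpoly s h m) ∧ (fpoly s h m).natDegree = 2 * m ∧
    ∀ k, (fpoly s h m).coeff k =
      Real.exp (s + h * ((k : ℝ) - m)) * ((((2 * m).choose k : ℕ) : ℝ) / (((2 * m).choose m : ℕ) : ℝ)) := by
  obtain ⟨hW, hW0⟩ := W2_posClass m 1 one_pos
  have hc : (0 : ℝ) < (((2 * m).choose m : ℕ) : ℝ) := by
    have : 0 < (2 * m).choose m := Nat.choose_pos (by omega)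
    exact_mod_cast this
  obtain ⟨h1, h2, h3⟩ := posClass_scale (W2 m 1) hW hW0 (Real.exp (s - h * m) / ((2 * m).choose m : ℕ))
    (Real.exp h) (div_pos (Real.exp_pos _) hc) (Real.exp_pos _)
  refine ⟨h1, ?_, ?_⟩
  · unfold fpoly; rw [h2, W2_natDegree]
  · intro k
    unfold fpoly
    rw [h3]
    have e : (W2 m 1).coeff k = ((2 * m).choose k : ℝ) := by
      have hW : W2 m 1 = (X + C 1) ^ (2 * m) := by unfold W2; ring
      rw [hW, coeff_X_add_C_pow, one_pow, one_mul]
    have e2 : Real.exp (s + h * ((k : ℝ) - m)) = Real.exp (s - h * m) * Real.exp h ^ k := by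
      rw [← Real.exp_nat_mul, ← Real.exp_add]; congr 1; ring
    rw [e, e2]
    field_simp

/-- Geometric sum bound. -/
lemma geom_bound (r : ℝ) (hr0 : 0 ≤ r) (hr1 : r < 1) (n : ℕ) :
    ∑ i ∈ Finset.range n, r ^ i ≤ 1 / (1 - r) := by
  rw [geom_sum_eq hr1.ne]
  have h1 : 0 < 1 - r := by linarith
  have h2 : (r ^ n - 1) / (r - 1) = (1 - r ^ n) / (1 - r) := by
    rw [← neg_div_neg_eq]; congr 1 <;> ring
  rw [h2]
  apply div_le_div_of_nonneg_right _ h1.le
  have : 0 ≤ r ^ n := pow_nonneg hr0 n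
  linarith

/-- Two-sided geometric bound for a polynomial value. -/
lemma eval_bound (b : ℕ → ℝ) (m : ℕ) (G ρ κ x : ℝ) (hG : 0 ≤ G) (hρ : 0 ≤ ρ) (hκ : 0 < κ) (hx : 0 < x)
    (h1 : ρ * x < 1) (h2 : 1 < κ * x)
    (hb1 : ∀ j, b (m + j) ≤ G * ρ ^ j) (hb2 : ∀ j, j ≤ m → b (m - j) ≤ G * (1 / κ) ^ j) :
    ∑ k ∈ Finset.range (2 * m + 1), b k * x ^ k ≤
      x ^ m * (G * (1 / (1 - ρ * x) + 1 / (1 - 1 / (κ * x)))) := by
  have e1 : 2 * m + 1 = m + (m + 1) := by ring
  rw [e1, Finset.sum_range_add]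
  have s1 : ∑ k ∈ Finset.range m, b k * x ^ k ≤ x ^ m * (G * (1 / (1 - 1 / (κ * x)))) := by
    rw [← Finset.sum_range_reflect]
    have hr1 : 1 / (κ * x) < 1 := by rw [div_lt_one (by positivity)]; exact h2
    have hr0 : 0 ≤ 1 / (κ * x) := by positivity
    have hg := geom_bound (1 / (κ * x)) hr0 hr1 (m + 1)
    calc ∑ j ∈ Finset.range m, b (m - 1 - j) * x ^ (m - 1 - j)
        ≤ ∑ j ∈ Finset.range m, x ^ m * (G * (1 / (κ * x)) ^ (j + 1)) := by
          apply Finset.sum_le_sum
          intro j hj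
          have hj' : j + 1 ≤ m := by have := Finset.mem_range.1 hj; omega
          have e2 : m - 1 - j = m - (j + 1) := by omega
          rw [e2]
          have e3 : x ^ m = x ^ (m - (j + 1)) * x ^ (j + 1) := by rw [← pow_add]; congr 1; omega
          have h3 := mul_le_mul_of_nonneg_right (hb2 (j + 1) hj') (pow_nonneg hx.le (m - (j + 1)))
          refine h3.trans (le_of_eq ?_)
          rw [e3, div_pow, div_pow, mul_pow]
          field_simp
      _ = x ^ m * (G * ∑ j ∈ Finset.range m, (1 / (κ * x)) ^ (j + 1)) := by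
          rw [Finset.mul_sum, Finset.mul_sum]
      _ ≤ x ^ m * (G * (1 / (1 - 1 / (κ * x)))) := by
          apply mul_le_mul_of_nonneg_left _ (by positivity)
          apply mul_le_mul_of_nonneg_left _ hG
          refine le_trans ?_ hg
          rw [Finset.sum_range_succ' (fun i => (1 / (κ * x)) ^ i) m]
          simp
  have s2 : ∑ k ∈ Finset.range (m + 1), b (m + k) * x ^ (m + k) ≤ x ^ m * (G * (1 / (1 - ρ * x))) := by
    have hg := geom_bound (ρ * x) (by positivity) h1 (m + 1)
    calc ∑ k ∈ Finset.range (m + 1), b (m + k) * x ^ (m + k)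
        ≤ ∑ k ∈ Finset.range (m + 1), x ^ m * (G * (ρ * x) ^ k) := by
          apply Finset.sum_le_sum
          intro k _
          rw [pow_add, mul_pow]
          have := mul_le_mul_of_nonneg_right (hb1 k) (mul_nonneg (pow_nonneg hx.le m) (pow_nonneg hx.le k))
          refine this.trans (le_of_eq ?_)
          ring
      _ = x ^ m * (G * ∑ k ∈ Finset.range (m + 1), (ρ * x) ^ k) := by
          rw [Finset.mul_sum, Finset.mul_sum]
      _ ≤ _ := by
          apply mul_le_mul_of_nonneg_left _ (by positivity)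
          exact mul_le_mul_of_nonneg_left hg hG
  calc _ ≤ x ^ m * (G * (1 / (1 - 1 / (κ * x)))) + x ^ m * (G * (1 / (1 - ρ * x))) := add_le_add s1 s2
    _ = _ := by ring

section core

variable {F : ℝ → ℝ} (hF : ∀ t, 0 ≤ t → 0 ≤ F t) (hP : Preserves F)

include hF hP in
/-- The coefficients of the image of `fpoly`. -/
lemma image_coeff_le (s h : ℝ) (m k : ℕ) :
    (entrywise F (fpoly s h m)).coeff k ≤ env F (s + h * ((k : ℝ) - m)) := by
  obtain ⟨h1, h2, h3⟩ := fpoly_spec s h m
  rw [entrywise_coeff]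
  split_ifs with hk
  · refine le_trans ?_ (le_env hF hP _)
    apply F_mono F hF hP _ _ (h1.2 k hk)
    rw [h3]
    have hc : (0 : ℝ) < (((2 * m).choose m : ℕ) : ℝ) := by
      have : 0 < (2 * m).choose m := Nat.choose_pos (by omega)
      exact_mod_cast this
    have hle : ((((2 * m).choose k : ℕ) : ℝ) / (((2 * m).choose m : ℕ) : ℝ)) ≤ 1 := by
      rw [div_le_one hc]
      have : (2 * m).choose k ≤ (2 * m).choose m := by
        have := Nat.choose_le_middle k (2 * m)
        have e : 2 * m / 2 = m := by omega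
        rwa [e] at this
      exact_mod_cast this
    calc _ ≤ Real.exp (s + h * ((k : ℝ) - m)) * 1 :=
          mul_le_mul_of_nonneg_left hle (Real.exp_pos _).le
      _ = _ := mul_one _
  · exact env_nonneg hF _

include hF hP in
lemma image_coeff_ge (s h : ℝ) (hh : 0 < h) (m j : ℕ) (hj : j + 1 ≤ m)
    (hr : Real.exp (-(h / 2)) ≤ (((2 * m).choose (m + (j + 1)) : ℕ) : ℝ) / (((2 * m).choose m : ℕ) : ℝ)) :
    env F s ≤ (entrywise F (fpoly s h m)).coeff (m + (j + 1)) := by
  obtain ⟨h1, h2, h3⟩ := fpoly_spec s h m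
  rw [entrywise_coeff, if_pos (by rw [h2]; omega)]
  have hlow : Real.exp (s + h / 2) ≤ (fpoly s h m).coeff (m + (j + 1)) := by
    rw [h3]
    have e1 : ((m + (j + 1) : ℕ) : ℝ) - m = (j : ℝ) + 1 := by push_cast; ring
    rw [e1]
    have e2 : Real.exp (s + h / 2) ≤ Real.exp (s + h * ((j : ℝ) + 1)) * Real.exp (-(h / 2)) := by
      rw [← Real.exp_add]
      apply Real.exp_le_exp.2
      have : 0 ≤ h * (j : ℝ) := by positivity
      nlinarith
    exact e2.trans (mul_le_mul_of_nonneg_left hr (Real.exp_pos _).le)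
  calc env F s ≤ F (Real.exp (s + h / 2)) := env_le hF _ _ (by linarith)
    _ ≤ _ := F_mono F hF hP _ _ (Real.exp_pos _) hlow

include hF hP in
set_option maxHeartbeats 4000000 in
/-- The reverse inequality: the envelope is affine in the logarithmic scale. -/
lemma core (s h : ℝ) (hh : 0 < h) (hs : 0 < env F s) :
    env F s ^ 2 ≤ env F (s - h) * env F (s + h) := by
  by_contra hcon
  push Not at hcon
  set g := env F with hg
  have gnn : ∀ u, 0 ≤ g u := env_nonneg hF
  have gmono : ∀ u v, u ≤ v → g u ≤ g v := env_mono hF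
  have glog : ∀ u k, g (u - k) * g (u + k) ≤ g u ^ 2 := env_log hF hP
  set G := g s with hG
  have hG0 : 0 < G := hs
  set ρ := g (s + h) / G with hρ
  have hρ1 : 1 ≤ ρ := by
    rw [hρ, one_le_div hG0]; exact gmono _ _ (by linarith)
  have hρ0 : 0 < ρ := by linarith
  have hρG : ρ * G = g (s + h) := by rw [hρ]; field_simp
  have hlt : ρ * g (s - h) < G := by
    have : ρ * g (s - h) * G < G * G := by
      calc ρ * g (s - h) * G = g (s - h) * (ρ * G) := by ring
        _ = g (s - h) * g (s + h) := by rw [hρG]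
        _ < G ^ 2 := hcon
        _ = G * G := by ring
    exact lt_of_mul_lt_mul_right this hG0.le
  set κ := ρ + (G - ρ * g (s - h)) / (g (s - h) + 1) with hκ
  have hden : 0 < g (s - h) + 1 := by have := gnn (s - h); linarith
  have hκρ : ρ < κ := by
    rw [hκ]; have : 0 < (G - ρ * g (s - h)) / (g (s - h) + 1) := div_pos (by linarith) hden
    linarith
  have hκ0 : 0 < κ := by linarith
  have hκG : κ * g (s - h) ≤ G := by
    have h1 : (G - ρ * g (s - h)) / (g (s - h) + 1) * g (s - h) ≤ G - ρ * g (s - h) := by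
      rw [div_mul_eq_mul_div, div_le_iff₀ hden]
      have : 0 ≤ G - ρ * g (s - h) := by linarith
      nlinarith [gnn (s - h)]
    rw [hκ, add_mul]; linarith
  -- right growth
  have hright' : ∀ j : ℕ, g (s + h * ((j : ℝ) + 1)) ≤ ρ * g (s + h * j) := by
    intro j
    induction j with
    | zero => simp only [Nat.cast_zero, zero_add, mul_one, mul_zero, add_zero]; rw [← hG, hρG]
    | succ j ih =>
      have h1 := glog (s + h * ((j : ℝ) + 1)) h
      have e1 : s + h * ((j : ℝ) + 1) - h = s + h * j := by ring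
      have e2 : s + h * ((j : ℝ) + 1) + h = s + h * ((j : ℝ) + 1 + 1) := by ring
      rw [e1, e2] at h1
      have hp : 0 < g (s + h * (j : ℝ)) :=
        hG0.trans_le (gmono _ _ (by have : 0 ≤ h * (j : ℝ) := by positivity
                                    linarith))
      have h2 : g (s + h * (j : ℝ)) * g (s + h * ((j : ℝ) + 1 + 1)) ≤
          g (s + h * (j : ℝ)) * (ρ * g (s + h * ((j : ℝ) + 1))) := by
        calc _ ≤ g (s + h * ((j : ℝ) + 1)) ^ 2 := h1
          _ = g (s + h * ((j : ℝ) + 1)) * g (s + h * ((j : ℝ) + 1)) := by ring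
          _ ≤ (ρ * g (s + h * j)) * g (s + h * ((j : ℝ) + 1)) :=
              mul_le_mul_of_nonneg_right ih (gnn _)
          _ = _ := by ring
      push_cast
      exact le_of_mul_le_mul_left h2 hp
  have hright : ∀ j : ℕ, g (s + h * j) ≤ G * ρ ^ j := by
    intro j
    induction j with
    | zero => simp [hG]
    | succ j ih =>
      have := hright' j
      push_cast
      calc g (s + h * ((j : ℝ) + 1)) ≤ ρ * g (s + h * j) := this
        _ ≤ ρ * (G * ρ ^ j) := mul_le_mul_of_nonneg_left ih hρ0.le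
        _ = G * ρ ^ (j + 1) := by ring
  -- left decay
  have hleft' : ∀ j : ℕ, κ * g (s - h * ((j : ℝ) + 1)) ≤ g (s - h * j) := by
    intro j
    induction j with
    | zero => simp only [Nat.cast_zero, zero_add, mul_one, mul_zero, sub_zero]; exact hκG
    | succ j ih =>
      have h1 := glog (s - h * ((j : ℝ) + 1)) h
      have e1 : s - h * ((j : ℝ) + 1) - h = s - h * ((j : ℝ) + 1 + 1) := by ring
      have e2 : s - h * ((j : ℝ) + 1) + h = s - h * j := by ring
      rw [e1, e2] at h1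
      push_cast
      rcases (gnn (s - h * ((j : ℝ) + 1))).eq_or_lt with h0 | hp
      · have h3 : g (s - h * ((j : ℝ) + 1 + 1)) ≤ g (s - h * ((j : ℝ) + 1)) := gmono _ _ (by nlinarith)
        have h4 : g (s - h * ((j : ℝ) + 1 + 1)) = 0 := le_antisymm (by rw [h0]; exact h3) (gnn _)
        rw [h4, mul_zero]; exact gnn _
      · have hp2 : 0 < g (s - h * (j : ℝ)) := hp.trans_le (gmono _ _ (by nlinarith))
        have h2 : g (s - h * (j : ℝ)) * (κ * g (s - h * ((j : ℝ) + 1 + 1))) ≤
            g (s - h * (j : ℝ)) * g (s - h * ((j : ℝ) + 1)) := by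
          calc g (s - h * (j : ℝ)) * (κ * g (s - h * ((j : ℝ) + 1 + 1)))
              = κ * (g (s - h * ((j : ℝ) + 1 + 1)) * g (s - h * (j : ℝ))) := by ring
            _ ≤ κ * g (s - h * ((j : ℝ) + 1)) ^ 2 := mul_le_mul_of_nonneg_left h1 hκ0.le
            _ = (κ * g (s - h * ((j : ℝ) + 1))) * g (s - h * ((j : ℝ) + 1)) := by ring
            _ ≤ g (s - h * (j : ℝ)) * g (s - h * ((j : ℝ) + 1)) :=
                mul_le_mul_of_nonneg_right ih (gnn _)
        exact le_of_mul_le_mul_left h2 hp2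
  have hleft : ∀ j : ℕ, g (s - h * j) ≤ G * (1 / κ) ^ j := by
    intro j
    induction j with
    | zero => simp [hG]
    | succ j ih =>
      have h1 := hleft' j
      push_cast
      have h2 : g (s - h * ((j : ℝ) + 1)) ≤ (1 / κ) * g (s - h * j) := by
        rw [one_div, inv_mul_eq_div, le_div_iff₀ hκ0]; linarith
      calc g (s - h * ((j : ℝ) + 1)) ≤ (1 / κ) * g (s - h * j) := h2
        _ ≤ (1 / κ) * (G * (1 / κ) ^ j) := mul_le_mul_of_nonneg_left ih (by positivity)
        _ = G * (1 / κ) ^ (j + 1) := by ring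
  -- the evaluation points
  set y := (1 / κ + 1 / ρ) / 2 with hy
  have hinv : 1 / κ < 1 / ρ := one_div_lt_one_div_of_lt hρ0 hκρ
  have hy1 : 1 / κ < y := by rw [hy]; linarith
  have hy2 : y < 1 / ρ := by rw [hy]; linarith
  have hy0 : 0 < y := lt_trans (by positivity) hy1
  set ε := min 1 ((1 / (ρ * y) - 1) / 6) with hε
  have hρy : ρ * y < 1 := by rw [lt_div_iff₀ hρ0] at hy2; linarith
  have hρy0 : 0 < ρ * y := by positivity
  have hε0 : 0 < ε := by
    apply lt_min one_pos
    have : 1 < 1 / (ρ * y) := by rw [lt_div_iff₀ hρy0]; linarith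
    linarith
  have hε1 : ε ≤ 1 := min_le_left _ _
  have hε2 : ε ≤ (1 / (ρ * y) - 1) / 6 := min_le_right _ _
  set q := 1 + ε with hq
  have hq1 : 1 ≤ q := by linarith
  have hq2 : q ≤ 2 := by linarith
  have hqq : ρ * (q ^ 2 * y) < 1 := by
    have h1 : q ^ 2 ≤ 1 + 3 * ε := by rw [hq]; nlinarith
    have h2 : 3 * ε < 1 / (ρ * y) - 1 := by
      have : 0 < 1 / (ρ * y) - 1 := by
        have : 1 < 1 / (ρ * y) := by rw [lt_div_iff₀ hρy0]; linarith
        linarith
      linarith
    have h3 : q ^ 2 < 1 / (ρ * y) := by linarith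
    rw [lt_div_iff₀ hρy0] at h3
    linarith
  -- upper bound constant
  set Uf : ℝ → ℝ := fun x => G * (1 / (1 - ρ * x) + 1 / (1 - 1 / (κ * x))) with hUf
  set U := max (Uf y) (max (Uf (q * y)) (Uf (q ^ 2 * y))) with hU
  set L := G * y with hL
  have hL0 : 0 < L := by positivity
  obtain ⟨N, hN⟩ : ∃ N : ℕ, 1 / y ≤ q ^ N := by
    obtain ⟨N, hN⟩ := pow_unbounded_of_one_lt (1 / y) (by linarith : 1 < q)
    exact ⟨N, hN.le⟩
  have hN' : 1 ≤ q ^ N * y := by rw [div_le_iff₀ hy0] at hN; exact hN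
  obtain ⟨B, hB⟩ := growth L U hL0 N
  obtain ⟨K, hK⟩ := exists_nat_gt (B / G)
  -- choose m large
  have hev : ∀ᶠ m : ℕ in Filter.atTop, ∀ j ∈ Finset.range (K + 1),
      Real.exp (-(h / 2)) ≤ (((2 * m).choose (m + (j + 1)) : ℕ) : ℝ) / (((2 * m).choose m : ℕ) : ℝ) := by
    rw [Filter.eventually_all_finset]
    intro j _
    have h1 : Real.exp (-(h / 2)) < 1 := by
      rw [Real.exp_lt_one_iff]; linarith
    exact ((choose_ratio (j + 1)).eventually (lt_mem_nhds h1)).mono (fun m hm => hm.le)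
  obtain ⟨m, hm1, hm2⟩ := (hev.and (Filter.eventually_ge_atTop (K + 1))).exists
  obtain ⟨hf1, hf2, hf3⟩ := fpoly_spec s h m
  set Q := entrywise F (fpoly s h m) with hQ
  have hQr : RealRooted Q := hP _ hf1
  have hQn : ∀ k, 0 ≤ Q.coeff k := entrywise_nonneg F hF _ hf1
  have hlow : ∀ j, j ∈ Finset.range (K + 1) → G ≤ Q.coeff (m + (j + 1)) := by
    intro j hj
    have := Finset.mem_range.1 hj
    exact image_coeff_ge hF hP s h hh m j (by omega) (hm1 j hj)
  have hQ0 : Q ≠ 0 := by
    intro h0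
    have := hlow 0 (by simp)
    rw [h0, coeff_zero] at this
    linarith
  have hQdeg : Q.natDegree < 2 * m + 1 := by
    apply Nat.lt_succ_of_le
    apply natDegree_le_iff_coeff_eq_zero.2
    intro k hk
    rw [hQ, entrywise_coeff, if_neg (by rw [hf2]; omega)]
  have hQeval : ∀ x, Q.eval x = ∑ k ∈ Finset.range (2 * m + 1), Q.coeff k * x ^ k := fun x =>
    eval_eq_sum_range' hQdeg x
  have hup : ∀ x, 1 / κ < x → ρ * x < 1 → Q.eval x ≤ x ^ m * Uf x := by
    intro x hx1 hx2
    have hx0 : 0 < x := lt_trans (by positivity) hx1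
    rw [hQeval]
    apply eval_bound (fun k => Q.coeff k) m G ρ κ x hG0.le hρ0.le hκ0 hx0 hx2
    · rw [div_lt_iff₀ hκ0] at hx1; linarith
    · intro j
      refine (image_coeff_le hF hP s h m (m + j)).trans ?_
      have e : s + h * (((m + j : ℕ) : ℝ) - m) = s + h * j := by push_cast; ring
      rw [e]; exact hright j
    · intro j hj
      refine (image_coeff_le hF hP s h m (m - j)).trans ?_
      have e : s + h * (((m - j : ℕ) : ℝ) - m) = s - h * j := by rw [Nat.cast_sub hj]; ring
      rw [e]; exact hleft j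
  obtain ⟨c, M, hc0, hM, hQM⟩ := exists_prodLin Q hQr hQ0 hQn
  -- the normalised sequence
  set e : ℕ → ℝ := fun k => Q.eval (q ^ k * y) / (q ^ k * y) ^ m with he
  have hq0 : 0 < q := by linarith
  have hpt : ∀ k : ℕ, 0 < q ^ k * y := fun k => by positivity
  have hterm : ∀ (k : ℕ) (x : ℝ), 0 < x → k ≤ 2 * m → Q.coeff k * x ^ k ≤ Q.eval x := by
    intro k x hx hk
    rw [hQeval]
    exact Finset.single_le_sum (f := fun k => Q.coeff k * x ^ k)
      (fun i _ => mul_nonneg (hQn i) (pow_nonneg hx.le i)) (Finset.mem_range.2 (by omega))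
  have heL : ∀ k, L ≤ e k := by
    intro k
    have h1 := hterm (m + (0 + 1)) (q ^ k * y) (hpt k) (by omega)
    have h2 := hlow 0 (by simp)
    rw [he, hL]
    simp only
    rw [le_div_iff₀ (pow_pos (hpt k) m)]
    have h3 : 1 ≤ q ^ k := one_le_pow₀ hq1
    calc G * y * (q ^ k * y) ^ m ≤ G * (q ^ k * y) * (q ^ k * y) ^ m := by
          apply mul_le_mul_of_nonneg_right _ (pow_pos (hpt k) m).le
          apply mul_le_mul_of_nonneg_left _ hG0.le
          nlinarith
      _ = G * (q ^ k * y) ^ (m + (0 + 1)) := by ring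
      _ ≤ Q.coeff (m + (0 + 1)) * (q ^ k * y) ^ (m + (0 + 1)) :=
          mul_le_mul_of_nonneg_right h2 (pow_pos (hpt k) _).le
      _ ≤ _ := h1
  have herec : ∀ k, e (k + 3) * e (k + 1) ^ 5 ≤ e (k + 2) ^ 4 * e k ^ 2 := by
    intro k
    obtain ⟨-, -, -, -, h4⟩ := prodLin_four M hM (q ^ k * y) q (hpt k) hq1 hq2
    have a1 : q * (q ^ k * y) = q ^ (k + 1) * y := by ring
    have a2 : q ^ 2 * (q ^ k * y) = q ^ (k + 2) * y := by ring
    have a3 : q ^ 3 * (q ^ k * y) = q ^ (k + 3) * y := by ring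
    rw [a1, a2, a3] at h4
    have hE : ∀ x, Q.eval x = c * (prodLin M).eval x := by
      intro x; rw [hQM]; simp
    have h5 : Q.eval (q ^ (k + 3) * y) * Q.eval (q ^ (k + 1) * y) ^ 5 ≤
        Q.eval (q ^ (k + 2) * y) ^ 4 * Q.eval (q ^ k * y) ^ 2 := by
      rw [hE, hE, hE, hE]
      have := mul_le_mul_of_nonneg_left h4 (pow_nonneg hc0.le 6)
      calc _ = c ^ 6 * ((prodLin M).eval (q ^ (k + 3) * y) * (prodLin M).eval (q ^ (k + 1) * y) ^ 5) := by ring
        _ ≤ _ := this
        _ = _ := by ring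
    rw [he]
    simp only
    rw [div_pow, div_pow, div_pow, div_mul_div_comm, div_mul_div_comm]
    have e1 : (q ^ (k + 3) * y) ^ m * ((q ^ (k + 1) * y) ^ m) ^ 5 =
        ((q ^ (k + 2) * y) ^ m) ^ 4 * ((q ^ k * y) ^ m) ^ 2 := by
      rw [← pow_mul, ← pow_mul, ← pow_mul, mul_comm m 5, mul_comm m 4, mul_comm m 2, pow_mul, pow_mul,
        pow_mul, ← mul_pow, ← mul_pow]
      congr 1; ring
    rw [e1]
    apply div_le_div_of_nonneg_right h5
    positivity
  have hp0 := hpt 0
  have he0 : e 0 ≤ U := by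
    have h1 := hup y hy1 hρy
    have : e 0 = Q.eval y / y ^ m := by rw [he]; simp
    rw [this, div_le_iff₀ (pow_pos hy0 m)]
    calc Q.eval y ≤ y ^ m * Uf y := h1
      _ ≤ y ^ m * U := mul_le_mul_of_nonneg_left (le_max_left _ _) (pow_pos hy0 m).le
      _ = _ := by ring
  have hqy0 : 0 < q * y := mul_pos hq0 hy0
  have hqy : y ≤ q * y := by
    calc y = 1 * y := (one_mul y).symm
      _ ≤ q * y := mul_le_mul_of_nonneg_right hq1 hy0.le
  have hqy2 : q * y ≤ q ^ 2 * y := by
    calc q * y = 1 * (q * y) := (one_mul _).symm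
      _ ≤ q * (q * y) := mul_le_mul_of_nonneg_right hq1 hqy0.le
      _ = q ^ 2 * y := by ring
  have he1 : e 1 ≤ U := by
    have h1 := hup (q * y) (by linarith) (lt_of_le_of_lt (mul_le_mul_of_nonneg_left hqy2 hρ0.le) hqq)
    have : e 1 = Q.eval (q * y) / (q * y) ^ m := by rw [he]; simp
    rw [this, div_le_iff₀ (pow_pos hqy0 m)]
    calc Q.eval (q * y) ≤ (q * y) ^ m * Uf (q * y) := h1
      _ ≤ (q * y) ^ m * U :=
          mul_le_mul_of_nonneg_left ((le_max_left _ _).trans (le_max_right _ _)) (pow_pos hqy0 m).le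
      _ = _ := by ring
  have he2 : e 2 ≤ U := by
    have h1 := hup (q ^ 2 * y) (by linarith) hqq
    have hqy0 : 0 < q ^ 2 * y := by positivity
    have : e 2 = Q.eval (q ^ 2 * y) / (q ^ 2 * y) ^ m := by rw [he]
    rw [this, div_le_iff₀ (pow_pos hqy0 m)]
    calc Q.eval (q ^ 2 * y) ≤ (q ^ 2 * y) ^ m * Uf (q ^ 2 * y) := h1
      _ ≤ (q ^ 2 * y) ^ m * U :=
          mul_le_mul_of_nonneg_left ((le_max_right _ _).trans (le_max_right _ _)) (pow_pos hqy0 m).le
      _ = _ := by ring
  have hfin := (hB e heL herec he0 he1 he2).1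
  -- lower bound at the far point
  have hbig : (K : ℝ) * G ≤ e N := by
    rw [he]
    simp only
    rw [le_div_iff₀ (pow_pos (hpt N) m)]
    set x := q ^ N * y with hx
    have hx0 : 0 < x := hpt N
    have h1 : ∑ j ∈ Finset.range K, Q.coeff (m + (j + 1)) * x ^ (m + (j + 1)) ≤ Q.eval x := by
      rw [hQeval]
      have hinj : ∑ j ∈ Finset.range K, Q.coeff (m + (j + 1)) * x ^ (m + (j + 1)) =
          ∑ k ∈ (Finset.range K).image (fun j => m + (j + 1)), Q.coeff k * x ^ k := by
        rw [Finset.sum_image]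
        intro a _ b _ hab
        simpa using hab
      rw [hinj]
      apply Finset.sum_le_sum_of_subset_of_nonneg
      · intro k hk
        obtain ⟨j, hj, rfl⟩ := Finset.mem_image.1 hk
        have := Finset.mem_range.1 hj
        exact Finset.mem_range.2 (by omega)
      · intro i _ _; exact mul_nonneg (hQn i) (pow_nonneg hx0.le i)
    refine le_trans ?_ h1
    calc (K : ℝ) * G * x ^ m = ∑ j ∈ Finset.range K, G * x ^ m := by
          rw [Finset.sum_const, Finset.card_range, nsmul_eq_mul]; ring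
      _ ≤ _ := by
          apply Finset.sum_le_sum
          intro j hj
          have hj' := Finset.mem_range.1 hj
          have h2 := hlow j (Finset.mem_range.2 (by omega))
          have h3 : x ^ m ≤ x ^ (m + (j + 1)) := pow_le_pow_right₀ hN' (by omega)
          exact mul_le_mul h2 h3 (pow_nonneg hx0.le m) (hQn _)
  have : B < K * G := by rw [div_lt_iff₀ hG0] at hK; exact hK
  linarith

end core

/-- A monotone additive function on the reals is linear. -/
lemma additive_linear (f : ℝ → ℝ) (hadd : ∀ x y, f (x + y) = f x + f y) (hmono : ∀ x y, x ≤ y → f x ≤ f y)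
    (x : ℝ) : f x = x * f 1 := by
  let φ : ℝ →+ ℝ := ⟨⟨f, by have := hadd 0 0; simp at this; exact this⟩, hadd⟩
  have hφ : ∀ u, φ u = f u := fun _ => rfl
  have hint : ∀ k : ℤ, f (k : ℝ) = k * f 1 := by
    intro k
    have := map_zsmul φ k (1 : ℝ)
    rw [hφ, hφ] at this
    simpa using this
  have hnat : ∀ n : ℕ, f ((n : ℝ) * x) = n * f x := by
    intro n
    have := map_nsmul φ n x
    rw [hφ, hφ] at this
    simpa using this
  have hα : 0 ≤ f 1 := by
    have h0 : f 0 = 0 := by have := hadd 0 0; simp at this; exact this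
    rw [← h0]; exact hmono 0 1 zero_le_one
  have hbound : ∀ n : ℕ, (n : ℝ) * |f x - x * f 1| ≤ f 1 := by
    intro n
    have h1 := Int.floor_le ((n : ℝ) * x)
    have h2 := (Int.lt_floor_add_one ((n : ℝ) * x)).le
    have h3 := hmono _ _ h1
    have h4 := hmono _ _ h2
    rw [hint, hnat] at h3
    have h5 : ((⌊(n : ℝ) * x⌋ : ℤ) : ℝ) + 1 = ((⌊(n : ℝ) * x⌋ + 1 : ℤ) : ℝ) := by push_cast; ring
    rw [h5, hint, hnat] at h4
    push_cast at h4
    rw [← abs_of_nonneg (Nat.cast_nonneg (α := ℝ) n), ← abs_mul, abs_le]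
    constructor
    · nlinarith
    · nlinarith
  by_contra hne
  have hpos : 0 < |f x - x * f 1| := abs_pos.2 (sub_ne_zero.2 hne)
  obtain ⟨n, hn⟩ := exists_nat_gt (f 1 / |f x - x * f 1|)
  rw [div_lt_iff₀ hpos] at hn
  linarith [hbound n]

/-- If `F : [0, ∞) → [0, ∞)` with `F 0 = 0` preserves real-rootedness, then either `F` vanishes
identically or `F t = c t ^ α` for constants `c > 0` and `α ≥ 1`. -/
theorem result (F : ℝ → ℝ) (hF : ∀ t, 0 ≤ t → 0 ≤ F t) (hF0 : F 0 = 0) (hP : Preserves F) :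
    (∀ t, 0 ≤ t → F t = 0) ∨
      ∃ c α : ℝ, 0 < c ∧ 1 ≤ α ∧ ∀ t, 0 ≤ t → F t = c * t ^ α := by
  by_cases hz : ∀ t, 0 < t → F t = 0
  · left
    intro t ht
    rcases ht.eq_or_lt with h | h
    · rw [← h, hF0]
    · exact hz t h
  right
  push Not at hz
  obtain ⟨t0, ht0, hFt0⟩ := hz
  set g := env F with hg
  have hs0 : 0 < g (Real.log t0) := by
    have h1 := le_env hF hP (Real.log t0)
    rw [Real.exp_log ht0] at h1
    exact lt_of_lt_of_le (lt_of_le_of_ne (hF t0 ht0.le) (Ne.symm hFt0)) h1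
  have gpos : ∀ s, 0 < g s := by
    intro s
    rcases le_or_gt (Real.log t0) s with h | h
    · exact hs0.trans_le (env_mono hF _ _ h)
    · have h1 := core hF hP (Real.log t0) (Real.log t0 - s) (by linarith) hs0
      have e : Real.log t0 - (Real.log t0 - s) = s := by ring
      rw [e] at h1
      rcases (env_nonneg hF s).eq_or_lt with h2 | h2
      · rw [← h2, zero_mul] at h1
        have : 0 < env F (Real.log t0) ^ 2 := pow_pos hs0 2
        linarith
      · exact h2
  set φ := fun s => Real.log (g s) with hφ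
  have hmid : ∀ x y, φ x + φ y = 2 * φ ((x + y) / 2) := by
    have hlt : ∀ x y, x < y → φ x + φ y = 2 * φ ((x + y) / 2) := by
      intro x y hxy
      have h1 := core hF hP ((x + y) / 2) ((y - x) / 2) (by linarith) (gpos _)
      have h2 := env_log hF hP ((x + y) / 2) ((y - x) / 2)
      have e1 : (x + y) / 2 - (y - x) / 2 = x := by ring
      have e2 : (x + y) / 2 + (y - x) / 2 = y := by ring
      rw [e1, e2] at h1 h2
      have h3 : g x * g y = g ((x + y) / 2) ^ 2 := le_antisymm h2 h1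
      simp only [hφ]
      rw [← Real.log_mul (gpos x).ne' (gpos y).ne', h3, Real.log_pow]
      norm_num
    intro x y
    rcases lt_trichotomy x y with h | h | h
    · exact hlt x y h
    · subst h
      have : (x + x) / 2 = x := by ring
      rw [this]; ring
    · have := hlt y x h
      rw [add_comm x y, add_comm (φ x)]; exact this
  have hlin := additive_linear (fun x => φ x - φ 0)
    (by
      intro x y
      have h1 := hmid x y
      have h2 := hmid (x + y) 0
      rw [add_zero] at h2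
      linarith)
    (by
      intro x y hxy
      have : φ x ≤ φ y := Real.log_le_log (gpos x) (env_mono hF _ _ hxy)
      linarith)
  set α := φ 1 - φ 0 with hα
  set c := g 0 with hc
  have hgform : ∀ s, g s = c * Real.exp (s * α) := by
    intro s
    have h1 := hlin s
    have h2 : φ s = φ 0 + s * α := by linarith
    have h3 : g s = Real.exp (φ s) := (Real.exp_log (gpos s)).symm
    rw [h3, h2, Real.exp_add]
    congr 1
    exact Real.exp_log (gpos 0)
  have hc0 : 0 < c := gpos 0
  have hFexp : ∀ s, F (Real.exp s) = g s := by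
    intro s
    apply le_antisymm (le_env hF hP s)
    by_contra hcon
    push Not at hcon
    have hcont : Continuous (fun t : ℝ => c * Real.exp (t * α)) := by fun_prop
    have h1 : ∀ᶠ t in nhdsWithin s (Set.Iio s), F (Real.exp s) < c * Real.exp (t * α) := by
      apply (hcont.tendsto s).mono_left nhdsWithin_le_nhds |>.eventually
      apply lt_mem_nhds
      rw [← hgform]; exact hcon
    obtain ⟨t, ht1, ht2⟩ := (h1.and self_mem_nhdsWithin).exists
    rw [← hgform] at ht1
    have := env_le hF t s ht2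
    exact absurd (lt_of_lt_of_le ht1 this) (lt_irrefl _)
  have hFform : ∀ t, 0 < t → F t = c * t ^ α := by
    intro t ht
    have h1 := hFexp (Real.log t)
    rw [Real.exp_log ht, hgform] at h1
    rw [h1, Real.rpow_def_of_pos ht]
  -- the exponent is at least one
  have hα1 : 1 ≤ α := by
    obtain ⟨hW, hW0⟩ := W2_posClass 1 1 one_pos
    have hWd := W2_natDegree 1 1
    have hWc : ∀ k, (W2 1 1).coeff k = ((2 : ℕ).choose k : ℝ) := by
      intro k
      have hW' : W2 1 1 = (X + C 1) ^ 2 := by unfold W2; ring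
      rw [hW', coeff_X_add_C_pow, one_pow, one_mul]
    have hR := hP _ hW
    have hexp : entrywise F (W2 1 1) = C (F 1) + C (F 2) * X + C (F 1) * X ^ 2 := by
      unfold entrywise
      rw [hWd]
      simp only [hWc]
      norm_num [Finset.sum_range_succ, Nat.choose]
    have hF1 : F 1 = c := by rw [hFform 1 one_pos]; simp
    have hF2 : F 2 = c * 2 ^ α := hFform 2 two_pos
    by_contra hcon
    push Not at hcon
    have hlt2 : F 2 < 2 * F 1 := by
      rw [hF1, hF2]
      have : (2 : ℝ) ^ α < 2 ^ (1 : ℝ) := Real.rpow_lt_rpow_of_exponent_lt (by norm_num) hcon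
      rw [Real.rpow_one] at this
      nlinarith
    have hF1p : 0 < F 1 := by rw [hF1]; exact hc0
    have hF2p : 0 < F 2 := by rw [hF2]; positivity
    set D := 4 * F 1 ^ 2 - F 2 ^ 2 with hD
    have hD0 : 0 < D := by rw [hD]; nlinarith
    have hne : entrywise F (W2 1 1) ≠ 0 := by
      intro h0
      have := congrArg (fun p => p.coeff 0) h0
      rw [hexp] at this
      simp at this
      linarith
    have hroot := hR.resolve_left hne ⟨-F 2 / (2 * F 1), Real.sqrt D / (2 * F 1)⟩ (by
      rw [hexp]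
      simp only [map_add, map_mul, map_pow, aeval_X, aeval_C]
      have hs : Real.sqrt D * Real.sqrt D = D := Real.mul_self_sqrt hD0.le
      apply Complex.ext
      · simp [pow_two]
        field_simp
        rw [pow_two (Real.sqrt D), hs, hD]
        ring
      · simp [pow_two]
        field_simp
        ring)
    have : 0 < Real.sqrt D / (2 * F 1) := by positivity
    exact this.ne' hroot
  refine ⟨c, α, hc0, hα1, ?_⟩
  intro t ht
  rcases ht.eq_or_lt with h | h
  · rw [← h, hF0, Real.zero_rpow (by linarith), mul_zero]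
  · exact hFform t h

end Pool.Agent.Results.MP_3f3e0f_an.PowerForm
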